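import Pool.Agent.H546R2.SL.A4

/-! # Degree bound with a common factor -/

set_option autoImplicit false
set_option linter.unusedSectionVars false

open MvPolynomial Module Finset

namespace Pool.Agent.H53R7

open Pool.Agent.H546R2.SL

theorem degree_bound_factor {K : Type*} [Field K] [IsAlgClosed K] {ι : Type*} [Fintype ι]
    {V : Type*} (y : V → MvPolynomial ι K) (e : ℕ) (he : 2 ≤ e) (hy : ∀ v, (y v).IsHomogeneous e)
    (hz : ∀ x : ι → K, (∀ v, eval x (y v) = 0) → x = 0) (R ℓ N : ℕ) (hN : N ≤ 2 ^ ℓ)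
    (W : Submodule K (MvPolynomial ι K)) (hW : restrictTotalDegree ι K 1 ≤ W)
    (hgood : Good (fun t => N * Nm ι t) R W) (G : MvPolynomial ι K) (hG : G ≠ 0) (hGW : G ∈ W)
    (hyW : ∀ v, G * y v ∈ W) : (e / 2) ^ Fintype.card ι ≤ 2 ^ (R + ℓ) := by
  classical
  obtain ⟨M, hM⟩ := exists_degree_bound y hz
  set U : Submodule K (MvPolynomial ι K) :=
    restrictTotalDegree ι K 1 ⊔ Submodule.span K (Set.range y) with hU
  have hspan := spanning y e (by omega) hy M hM U le_sup_left
    (fun v => (le_sup_right : _ ≤ U) (Submodule.subset_span ⟨v, rfl⟩))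
  have h1 : Submodule.span K {G} * U ≤ W ^ 2 := by
    rw [pow_two, hU, Submodule.mul_sup]
    refine sup_le ?_ ?_
    · refine mul_le_mul' ?_ hW
      rw [Submodule.span_le, Set.singleton_subset_iff]
      exact hGW
    · rw [Submodule.span_mul_span, Submodule.span_le]
      rintro _ ⟨g, hg, z, ⟨v, rfl⟩, rfl⟩
      rw [Set.mem_singleton_iff] at hg
      subst hg
      have := Submodule.mul_mem_mul (hyW v) hgood.one
      rw [mul_one] at this
      exact this
  have h2 : ∀ τ : ℕ, finrank K ↥(U ^ τ) ≤ 2 ^ R * (N * Nm ι (2 * τ)) := by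
    intro τ
    have h3 := pow_le_pow_left' h1 τ
    rw [mul_pow, ← pow_mul, Submodule.span_pow, Set.singleton_pow] at h3
    have : FiniteDimensional K ↥(W ^ (2 * τ)) := Module.Finite.iff_fg.mpr (hgood.fg.pow _)
    have h4 := Submodule.finrank_mono h3
    rw [finrank_span_mul _ (pow_ne_zero _ hG)] at h4
    exact h4.trans (hgood.bound _)
  have hUfg : U.FG := by
    have := hgood.fg
    refine Submodule.FG.sup (Module.Finite.iff_fg.mp inferInstance) ?_
    have hfin : FiniteDimensional K ↥(Submodule.span K (Set.range y)) := by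
      have hWfd : FiniteDimensional K ↥W := Module.Finite.iff_fg.mpr this
      have hle : (Submodule.span K (Set.range y)).map (LinearMap.mulLeft K G) ≤ W := by
        rw [Submodule.map_span, Submodule.span_le]
        rintro _ ⟨_, ⟨v, rfl⟩, rfl⟩
        exact hyW v
      have hfd2 : FiniteDimensional K
          ↥((Submodule.span K (Set.range y)).map (LinearMap.mulLeft K G)) :=
        Submodule.finiteDimensional_of_le hle
      have hinj : Function.Injective (LinearMap.mulLeft K G) := by
        intro a b hab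
        exact mul_left_cancel₀ hG hab
      exact Module.Finite.equiv
        (Submodule.equivMapOfInjective (LinearMap.mulLeft K G) hinj _).symm
    exact Module.Finite.iff_fg.mp hfin
  apply growth_contradiction (ι := ι) (R + ℓ) (e / 2) (2 * (M + e)) (by omega)
  intro τ
  have h3 := hspan (e / 2 * τ)
  have hfdU : FiniteDimensional K ↥(U ^ (e / 2 * τ / e + (M + e))) :=
    Module.Finite.iff_fg.mpr (hUfg.pow _)
  have h4 := Submodule.finrank_mono h3
  rw [finrank_restrict] at h4
  have h5 := h2 (e / 2 * τ / e + (M + e))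
  have h6 : 2 * (e / 2 * τ / e + (M + e)) ≤ τ + 2 * (M + e) := by
    have h7 : e / 2 * τ / e * e ≤ e / 2 * τ := Nat.div_mul_le_self _ _
    have h8 : 2 * (e / 2) ≤ e := Nat.mul_div_le e 2
    have h9 : (2 * (e / 2 * τ / e)) * e ≤ τ * e := by
      calc (2 * (e / 2 * τ / e)) * e = 2 * (e / 2 * τ / e * e) := by ring
        _ ≤ 2 * (e / 2 * τ) := Nat.mul_le_mul_left _ h7
        _ = 2 * (e / 2) * τ := by ring
        _ ≤ e * τ := Nat.mul_le_mul_right _ h8
        _ = τ * e := by ring
    have h10 : 2 * (e / 2 * τ / e) ≤ τ := Nat.le_of_mul_le_mul_right h9 (by omega)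
    omega
  calc Nm ι (e / 2 * τ) ≤ 2 ^ R * (N * Nm ι (2 * (e / 2 * τ / e + (M + e)))) := h4.trans h5
    _ ≤ 2 ^ R * (2 ^ ℓ * Nm ι (τ + 2 * (M + e))) :=
        Nat.mul_le_mul_left _ (Nat.mul_le_mul hN (Nm_mono h6))
    _ = 2 ^ (R + ℓ) * Nm ι (τ + 2 * (M + e)) := by rw [pow_add]; ring

end Pool.Agent.H53R7
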