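import Pool.Agent.H53R7.Tree

/-! # Final statements -/

set_option autoImplicit false
set_option linter.unusedSectionVars false

open MvPolynomial Finset Filter

namespace Pool.Agent.H53R7

open Pool.Agent.H546R2.SL Pool.Agent.H213R3.PC

universe u

/-- the input `(X, y)` as a family indexed by the positions of `X` and one more index for `y` -/
def inp {K : Type u} {N : ℕ} (X : Matrix (Fin N) (Fin N) K) (y : K) :
    Option (Fin N × Fin N) → K :=
  fun o => o.elim y fun p => X p.1 p.2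

lemma eval_perN {K : Type u} [Field K] {N : ℕ} (X : Matrix (Fin N) (Fin N) K) :
    eval (fun p : Fin N × Fin N => X p.1 p.2) (perN K N) = X.permanent := by
  unfold perN Matrix.permanent
  rw [map_sum]
  refine Finset.sum_congr rfl fun s _ => ?_
  rw [map_prod]
  refine Finset.prod_congr rfl fun i _ => ?_
  rw [Matrix.of_apply, eval_X]

lemma gs_eq_zero {K : Type u} [Field K] [Infinite K] {N : ℕ}
    (F : MvPolynomial (Option (Fin N × Fin N)) K)
    (h : ∀ X : Matrix (Fin N) (Fin N) K, eval (inp X X.permanent) F = 0) :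
    gs (perN K N) F = 0 := by
  apply MvPolynomial.funext
  intro x
  rw [map_zero, ← eval_pt_zero]
  have h1 := h (Matrix.of fun i j => x (i, j))
  have h2 : inp (Matrix.of fun i j => x (i, j)) (Matrix.of fun i j => x (i, j)).permanent
      = pt (perN K N) x 0 := by
    funext o
    cases o with
    | none =>
      simp only [inp, pt, Option.elim, add_zero]
      rw [← eval_perN]
      rfl
    | some p => rfl
  rw [← h2]
  exact h1

theorem tree_lower {K : Type u} [Field K] [CharZero K] {T : Type} [Fintype T] {τ : K → T}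
    {𝓕 : Filter K} (h : TestLocus τ 𝓕) (N : ℕ) (B : ℝ)
    (hB : ∀ (s : ℕ) (M : Finset ℕ) (g : ℕ → MvPolynomial (Option (Fin N × Fin N)) K),
      NSLP s M g → ∀ F : MvPolynomial (Option (Fin N × Fin N)) K, F ≠ 0 →
      gs (perN K N) F = 0 → (∃ i < s, F = g i) → B ≤ M.card)
    (t : ACT K (Option (Fin N × Fin N)) T 0)
    (ht : ∀ (X : Matrix (Fin N) (Fin N) K) (y : K),
      t.run τ (inp X y) Fin.elim0 = true ↔ y = X.permanent) : B ≤ 3 * t.cost := by
  obtain ⟨f, hf, hf0, hgf⟩ := exists_poly h (perN K N) t (by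
    intro x
    have h1 := ht (Matrix.of fun i j => x (some (i, j))) (x none)
    have h2 : inp (Matrix.of fun i j => x (some (i, j))) (x none) = x := by
      funext o
      cases o <;> rfl
    rw [h2] at h1
    rw [h1, ← eval_perN]
    rfl)
  obtain ⟨s, M, g, hg, _, hM, hfg⟩ := hf
  obtain ⟨i, hi, hfi⟩ := hfg f rfl
  refine (hB s M g hg f hf0 hgf ⟨i, hi, hfi⟩).trans ?_
  exact_mod_cast hM

open Classical in
theorem main (ε : ℝ) (hε : 0 < ε) : ∃ N₀ : ℕ,
    (∀ (K : Type u) [Field K] [CharZero K], ∀ N ≥ N₀, ∀ (s : ℕ) (M : Finset ℕ)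
      (g : ℕ → MvPolynomial (Option (Fin N × Fin N)) K), NSLP s M g →
      ∀ F : MvPolynomial (Option (Fin N × Fin N)) K, F ≠ 0 → (∃ i < s, F = g i) →
      (∀ X : Matrix (Fin N) (Fin N) K, eval (inp X X.permanent) F = 0) →
      (1 / 96 - ε) * (N : ℝ) ^ 2 * Real.logb 2 N ≤ M.card) ∧
    (∀ N ≥ N₀, ∀ t : ACT ℝ (Option (Fin N × Fin N)) SignType 0,
      (∀ (X : Matrix (Fin N) (Fin N) ℝ) (y : ℝ),
        t.run (fun x => SignType.sign x) (inp X y) Fin.elim0 = true ↔ y = X.permanent) →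
      (1 / 288 - ε) * (N : ℝ) ^ 2 * Real.logb 2 N ≤ t.cost) ∧
    (∀ (K : Type u) [Field K] [CharZero K], ∀ N ≥ N₀,
      ∀ t : ACT K (Option (Fin N × Fin N)) Bool 0,
      (∀ (X : Matrix (Fin N) (Fin N) K) (y : K),
        t.run (fun x => decide (x = 0)) (inp X y) Fin.elim0 = true ↔ y = X.permanent) →
      (1 / 288 - ε) * (N : ℝ) ^ 2 * Real.logb 2 N ≤ t.cost) := by
  obtain ⟨N₁, h₁⟩ := graph_lower.{u} ε hε
  obtain ⟨N₂, h₂⟩ := graph_lower.{0} (3 * ε) (by positivity)
  obtain ⟨N₃, h₃⟩ := graph_lower.{u} (3 * ε) (by positivity)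
  refine ⟨max N₁ (max N₂ N₃), ?_, ?_, ?_⟩
  · intro K _ _ N hN s M g hg F hF hFg hv
    exact h₁ K N ((le_max_left _ _).trans hN) s M g hg F hF (gs_eq_zero F hv) hFg
  · intro N hN t ht
    have hN' : N₂ ≤ N := ((le_max_left _ _).trans (le_max_right _ _)).trans hN
    have h4 := tree_lower testLocus_sign N _ (fun s M g hg F hF hF0 hFg =>
      h₂ ℝ N hN' s M g hg F hF hF0 hFg) t ht
    linarith
  · intro K _ _ N hN t ht
    have hN' : N₃ ≤ N := ((le_max_right _ _).trans (le_max_right _ _)).trans hN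
    have h4 := tree_lower (testLocus_zero K) N _ (fun s M g hg F hF hF0 hFg =>
      h₃ K N hN' s M g hg F hF hF0 hFg) t ht
    linarith

end Pool.Agent.H53R7
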