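import Pool.Agent.H546R2.SL.A4

/-! # Growth of spaces of polynomials of degree at most one together with one polynomial -/

set_option autoImplicit false
set_option linter.unusedSectionVars false

open MvPolynomial Module Finset

namespace Pool.Agent.H53R7

open Pool.Agent.H546R2.SL

variable {ι : Type*} [Fintype ι]

/-- one more variable: the monomials of degree exactly `s + 1` -/
lemma Nm_option_succ (s : ℕ) : Nm (Option ι) (s + 1) ≤ Nm (Option ι) s + Nm ι (s + 1) := by
  classical
  unfold Nm
  have hfin1 := finite_Ex (ι := Option ι) s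
  have hfin2 := finite_Ex (ι := ι) (s + 1)
  have h : Nat.card (Ex (Option ι) s ⊕ Ex ι (s + 1))
      = Nat.card (Ex (Option ι) s) + Nat.card (Ex ι (s + 1)) := Nat.card_sum
  rw [← h]
  -- the map
  let f : Ex (Option ι) (s + 1) → Ex (Option ι) s ⊕ Ex ι (s + 1) := fun m =>
    if hm : ∑ i, m.1 i ≤ s then Sum.inl ⟨m.1, (mem_Ex _ _).2 hm⟩
    else Sum.inr ⟨m.1.some, by
      rw [mem_Ex]
      have h1 := (mem_Ex _ _).1 m.2
      rw [Fintype.sum_option] at h1
      simp only [Finsupp.some_apply]
      omega⟩
  apply Nat.card_le_card_of_injective f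
  intro m m' hmm
  simp only [f] at hmm
  split_ifs at hmm with h1 h2 h2
  · simp only [Sum.inl.injEq, Subtype.mk.injEq] at hmm
    exact Subtype.ext hmm
  · simp only [Sum.inr.injEq, Subtype.mk.injEq] at hmm
    apply Subtype.ext
    have h3 := (mem_Ex _ _).1 m.2
    have h4 := (mem_Ex _ _).1 m'.2
    have h5 : ∀ i, m.1 (some i) = m'.1 (some i) := by
      intro i
      have := DFunLike.congr_fun hmm i
      simpa only [Finsupp.some_apply] using this
    have h6 : ∑ i, m.1 (some i) = ∑ i, m'.1 (some i) := Finset.sum_congr rfl fun i _ => h5 i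
    rw [Fintype.sum_option] at h1 h2 h3 h4
    ext o
    cases o with
    | none => omega
    | some i => exact h5 i

lemma Nm_option_le (t : ℕ) : ∀ r : ℕ, Nm (Option ι) t ≤ Nm (Option ι) (t - r) + r * Nm ι t := by
  intro r
  induction r with
  | zero => simp
  | succ r ih =>
    rcases Nat.lt_or_ge r t with hr | hr
    · obtain ⟨s, hs⟩ : ∃ s, t - r = s + 1 := ⟨t - r - 1, by omega⟩
      have h1 := Nm_option_succ (ι := ι) s
      rw [← hs] at h1
      have h2 : t - (r + 1) = s := by omega
      rw [h2]
      have h3 : Nm ι (t - r) ≤ Nm ι t := Nm_mono (Nat.sub_le _ _)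
      have h4 : (r + 1) * Nm ι t = r * Nm ι t + Nm ι t := by ring
      omega
    · have h2 : t - (r + 1) = t - r := by omega
      rw [h2]
      have h4 : (r + 1) * Nm ι t = r * Nm ι t + Nm ι t := by ring
      omega

lemma Nm_zero : Nm (Option ι) 0 = 1 := by
  unfold Nm
  have : Unique (Ex (Option ι) 0) := {
    default := ⟨0, by rw [mem_Ex]; simp⟩
    uniq := by
      rintro ⟨m, hm⟩
      rw [mem_Ex] at hm
      apply Subtype.ext
      ext i
      have := Finset.single_le_sum (f := fun i => m i) (fun i _ => Nat.zero_le _) (Finset.mem_univ i)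
      show m i = 0
      omega }
  exact Nat.card_unique

lemma Nm_option_le' (t N : ℕ) (hN : t < N) : Nm (Option ι) t ≤ N * Nm ι t := by
  have h1 := Nm_option_le (ι := ι) t t
  rw [Nat.sub_self, Nm_zero] at h1
  have h2 : 1 ≤ Nm ι t := Nm_pos t
  calc Nm (Option ι) t ≤ 1 + t * Nm ι t := h1
    _ ≤ Nm ι t + t * Nm ι t := by omega
    _ = (t + 1) * Nm ι t := by ring
    _ ≤ N * Nm ι t := Nat.mul_le_mul_right _ hN

variable {L : Type*} [Field L]

/-- `X none` becomes `b` -/
noncomputable def gr (b : MvPolynomial ι L) : MvPolynomial (Option ι) L →ₐ[L] MvPolynomial ι L :=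
  aeval (fun o => o.elim b X)

lemma gr_rename (b p : MvPolynomial ι L) : gr b (rename some p) = p := by
  unfold gr
  rw [aeval_rename]
  have : (fun o : Option ι => o.elim b X) ∘ some = X := rfl
  rw [this, aeval_X_left]
  rfl

lemma gr_none (b : MvPolynomial ι L) : gr b (X none) = b := by
  unfold gr
  rw [aeval_X]
  rfl

theorem finrank_pow_le (b : MvPolynomial ι L) (N : ℕ) (hN : 1 ≤ N) (hb : b.totalDegree ≤ N)
    (t : ℕ) :
    finrank L ↥((restrictTotalDegree ι L 1 ⊔ Submodule.span L {b}) ^ t) ≤ N * Nm ι t := by
  classical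
  have hfd : ∀ s, FiniteDimensional L ↥(restrictTotalDegree (Option ι) L s) := fun s =>
    inferInstance
  -- the space is contained in the image
  have h1 : restrictTotalDegree ι L 1 ⊔ Submodule.span L {b}
      ≤ (restrictTotalDegree (Option ι) L 1).map (gr b).toLinearMap := by
    refine sup_le ?_ ?_
    · intro p hp
      refine ⟨rename some p, ?_, gr_rename b p⟩
      rw [SetLike.mem_coe, mem_restrictTotalDegree] at *
      exact (totalDegree_rename_le _ _).trans hp
    · rw [Submodule.span_le, Set.singleton_subset_iff]
      refine ⟨X none, ?_, gr_none b⟩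
      rw [SetLike.mem_coe, mem_restrictTotalDegree, totalDegree_X]
  have h2 : (restrictTotalDegree ι L 1 ⊔ Submodule.span L {b}) ^ t
      ≤ (restrictTotalDegree (Option ι) L t).map (gr b).toLinearMap := by
    refine (pow_le_pow_left' h1 t).trans ?_
    rw [← Submodule.map_pow]
    exact Submodule.map_mono (pow_restrict_le t)
  have h3 := Submodule.finrank_mono h2
  refine h3.trans ?_
  set f : ↥(restrictTotalDegree (Option ι) L t) →ₗ[L] MvPolynomial ι L :=
    (gr b).toLinearMap.domRestrict (restrictTotalDegree (Option ι) L t) with hf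
  have h4 : finrank L ↥((restrictTotalDegree (Option ι) L t).map (gr b).toLinearMap)
      = finrank L ↥(LinearMap.range f) := by
    rw [hf, LinearMap.range_domRestrict]
  rw [h4]
  have h5 := LinearMap.finrank_range_add_finrank_ker f
  rw [finrank_restrict] at h5
  rcases Nat.lt_or_ge t N with htN | htN
  · have := Nm_option_le' (ι := ι) t N htN
    omega
  · -- multiples of `X none - b`
    set c : MvPolynomial (Option ι) L := X none - rename some b with hc
    have hc0 : c ≠ 0 := by
      intro h
      have h6 := congrArg (gr (0 : MvPolynomial ι L)) h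
      have h7 := congrArg (gr (1 : MvPolynomial ι L)) h
      rw [hc, map_sub, gr_none, gr_rename, map_zero] at h6 h7
      have h8 : (0 : MvPolynomial ι L) = 1 := by
        rw [sub_eq_zero] at h6 h7
        rw [h6, ← h7]
      exact zero_ne_one h8
    have hcd : c.totalDegree ≤ N := by
      refine (totalDegree_sub _ _).trans (max_le ?_ ?_)
      · rw [totalDegree_X]; exact hN
      · exact (totalDegree_rename_le _ _).trans hb
    let g : ↥(restrictTotalDegree (Option ι) L (t - N)) →ₗ[L] ↥(LinearMap.ker f) :=
      LinearMap.codRestrict _ (LinearMap.codRestrict _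
        ((LinearMap.mulLeft L c).domRestrict (restrictTotalDegree (Option ι) L (t - N)))
        (by
          rintro ⟨p, hp⟩
          rw [mem_restrictTotalDegree] at hp
          rw [LinearMap.domRestrict_apply, LinearMap.mulLeft_apply, mem_restrictTotalDegree]
          refine (totalDegree_mul _ _).trans ?_
          simp only
          omega))
        (by
          rintro ⟨p, hp⟩
          rw [LinearMap.mem_ker]
          show gr b (c * p) = 0
          rw [map_mul, hc, map_sub, gr_none, gr_rename, sub_self, zero_mul])
    have hg : Function.Injective g := by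
      rintro ⟨p, hp⟩ ⟨p', hp'⟩ h
      have h6 : c * p = c * p' := congrArg (fun z => ((z : ↥(restrictTotalDegree (Option ι) L t)) :
        MvPolynomial (Option ι) L)) (congrArg Subtype.val h)
      exact Subtype.ext (mul_left_cancel₀ hc0 h6)
    have h6 := LinearMap.finrank_le_finrank_of_injective hg
    rw [finrank_restrict] at h6
    have h7 := Nm_option_le (ι := ι) t N
    omega

end Pool.Agent.H53R7
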