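import Pool.Agent.H632R2.Border3
import Pool.Agent.H53R7.Growth

/-! # Good spaces from programs whose output vanishes on a graph -/

set_option autoImplicit false
set_option linter.unusedSectionVars false

open MvPolynomial Module Finset

namespace Pool.Agent.H53R7

open Pool.Agent.H546R2.SL Pool.Agent.H632R2.Border

section General

variable {K : Type*} [Field K] {σ : Type*}

/-- the polynomial `y - P` -/
noncomputable def qq (P : MvPolynomial σ K) : MvPolynomial (Option σ) K :=
  X none - rename some P

/-- substitution of `P` for `y` -/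
noncomputable def gs (P : MvPolynomial σ K) : MvPolynomial (Option σ) K →ₐ[K] MvPolynomial σ K :=
  aeval (fun o => o.elim P X)

lemma gs_rename (P p : MvPolynomial σ K) : gs P (rename some p) = p := by
  unfold gs
  rw [aeval_rename]
  have : (fun o : Option σ => o.elim P X) ∘ some = X := rfl
  rw [this, aeval_X_left]
  rfl

lemma gs_none (P : MvPolynomial σ K) : gs P (X none) = P := by
  unfold gs
  rw [aeval_X]
  rfl

lemma gs_qq (P : MvPolynomial σ K) : gs P (qq P) = 0 := by
  rw [qq, map_sub, gs_none, gs_rename, sub_self]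

lemma dvd_sub_rename (P : MvPolynomial σ K) (H : MvPolynomial (Option σ) K) :
    qq P ∣ H - rename some (gs P H) := by
  induction H using MvPolynomial.induction_on with
  | C c =>
    have : gs P (C c) = C c := by unfold gs; rw [aeval_C]; rfl
    rw [this, rename_C, sub_self]
    exact dvd_zero _
  | add f g hf hg =>
    have : f + g - rename some (gs P (f + g)) = (f - rename some (gs P f)) +
        (g - rename some (gs P g)) := by rw [map_add, map_add]; ring
    rw [this]
    exact dvd_add hf hg
  | mul_X f o hf =>
    cases o with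
    | none =>
      have : f * X none - rename some (gs P (f * X none)) = (f - rename some (gs P f)) * X none +
          rename some (gs P f) * qq P := by
        rw [map_mul, map_mul, gs_none, qq]; ring
      rw [this]
      exact dvd_add (hf.mul_right _) (Dvd.intro_left _ rfl)
    | some i =>
      have h1 : gs P (X (some i)) = X i := by unfold gs; rw [aeval_X]; rfl
      have : f * X (some i) - rename some (gs P (f * X (some i))) =
          (f - rename some (gs P f)) * X (some i) := by
        rw [map_mul, map_mul, h1, rename_X]; ring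
      rw [this]
      exact hf.mul_right _

lemma exists_factor (P : MvPolynomial σ K) (F : MvPolynomial (Option σ) K) (hF : F ≠ 0)
    (h0 : gs P F = 0) :
    ∃ (d : ℕ) (H : MvPolynomial (Option σ) K), F = qq P ^ (d + 1) * H ∧ gs P H ≠ 0 := by
  have hu : ¬ IsUnit (qq P) := by
    intro h
    have h1 := h.map (gs P)
    rw [gs_qq] at h1
    exact not_isUnit_zero h1
  obtain ⟨n, H, hn, hFH⟩ := WfDvdMonoid.max_power_factor' hF hu
  have hH : gs P H ≠ 0 := by
    intro h
    apply hn
    have h1 := dvd_sub_rename P H
    rwa [h, map_zero, sub_zero] at h1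
  rcases Nat.eq_zero_or_pos n with h | h
  · exfalso
    rw [h, pow_zero, one_mul] at hFH
    rw [hFH] at h0
    exact hH h0
  · obtain ⟨d, rfl⟩ : ∃ d, n = d + 1 := ⟨n - 1, by omega⟩
    exact ⟨d, H, hFH, hH⟩

lemma exists_eps {ι : Type*} (E : MvPolynomial ι (Polynomial K)) (hE : E ≠ 0) :
    ∃ (k : ℕ) (E₀ : MvPolynomial ι (Polynomial K)), E = C (Polynomial.X ^ k) * E₀ ∧
      map (Polynomial.evalRingHom 0) E₀ ≠ 0 := by
  have hu : ¬ IsUnit (C Polynomial.X : MvPolynomial ι (Polynomial K)) := by
    intro h
    have h1 := h.map (map (Polynomial.evalRingHom (0 : K)) :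
      MvPolynomial ι (Polynomial K) →+* MvPolynomial ι K)
    rw [map_C, Polynomial.coe_evalRingHom, Polynomial.eval_X, map_zero] at h1
    exact not_isUnit_zero h1
  obtain ⟨k, E₀, hk, hEE⟩ := WfDvdMonoid.max_power_factor' hE hu
  refine ⟨k, E₀, by rw [hEE, map_pow], ?_⟩
  intro h
  apply hk
  rw [C_dvd_iff_dvd_coeff]
  intro m
  have h1 := congrArg (coeff m) h
  rw [coeff_map, coeff_zero, Polynomial.coe_evalRingHom] at h1
  rw [Polynomial.X_dvd_iff, Polynomial.coeff_zero_eq_eval_zero]
  exact h1

end General

/-- base change of a substitution -/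
lemma map_aeval_base {K R L : Type*} [Field K] [CommRing R] [Algebra K R] [CommRing L]
    [Algebra K L] (f : R →+* L) (hf : ∀ c : K, f (algebraMap K R c) = algebraMap K L c)
    {σ ι : Type*} (s : σ → MvPolynomial ι R) (p : MvPolynomial σ K) :
    map f (aeval s p) = aeval (fun v => map f (s v)) p := by
  induction p using MvPolynomial.induction_on with
  | C c =>
    rw [aeval_C, aeval_C]
    have h1 : algebraMap K (MvPolynomial ι R) c = C (algebraMap K R c) := rfl
    have h2 : algebraMap K (MvPolynomial ι L) c = C (algebraMap K L c) := rfl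
    rw [h1, h2, map_C, hf]
  | add p q hp hq => rw [map_add, map_add, hp, hq, map_add]
  | mul_X p v hp => rw [map_mul, map_mul, hp, map_mul, aeval_X, aeval_X]

lemma aeval_map_base {K L : Type*} [Field K] [CommRing L] [Algebra K L]
    {σ ι : Type*} (s : σ → MvPolynomial ι L) (p : MvPolynomial σ K) :
    aeval s (map (algebraMap K L) p) = aeval s p := by
  induction p using MvPolynomial.induction_on with
  | C c =>
    rw [map_C, aeval_C, aeval_C]
    rfl
  | add p q hp hq => rw [map_add, map_add, hp, hq, map_add]
  | mul_X p v hp => rw [map_mul, map_mul, hp, map_mul, map_X, aeval_X, aeval_X]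

lemma totalDegree_aeval_le {K R : Type*} [Field K] [CommRing R] [Algebra K R] {σ τ : Type*}
    (m : σ → MvPolynomial τ R) (hm : ∀ v, (m v).totalDegree ≤ 1) (f : MvPolynomial σ K) :
    (aeval m f).totalDegree ≤ f.totalDegree := by
  conv_lhs => rw [f.as_sum, map_sum]
  refine (totalDegree_finset_sum _ _).trans (Finset.sup_le fun b hb => ?_)
  rw [aeval_monomial]
  refine (totalDegree_mul _ _).trans ?_
  have h1 : (algebraMap K (MvPolynomial τ R) (coeff b f)).totalDegree = 0 :=
    totalDegree_C _
  rw [h1, zero_add]
  refine le_trans ?_ (le_totalDegree hb)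
  unfold Finsupp.prod
  refine (totalDegree_finset_prod _ _).trans ?_
  refine Finset.sum_le_sum fun i _ => ?_
  refine (totalDegree_pow _ _).trans ?_
  calc b i * (m i).totalDegree ≤ b i * 1 := Nat.mul_le_mul_left _ (hm i)
    _ = b i := mul_one _

section Main

variable {K : Type*} [Field K] [CharZero K] {σ ι : Type*} [Fintype σ] [DecidableEq σ] [Fintype ι]

/-- polynomials inside the local ring -/
noncomputable def jR (K : Type*) [Field K] : Polynomial K →+* O0 K :=
  (algebraMap (Polynomial K) (RatFunc K)).codRestrict (O0 K).toSubring (fun p => by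
    show (algebraMap (Polynomial K) (RatFunc K) p).denom.eval 0 ≠ 0
    rw [RatFunc.denom_algebraMap]; simp)

lemma subtype_jR : (O0 K).subtype.comp (jR K) = algebraMap (Polynomial K) (RatFunc K) := rfl

lemma φ0_jR : (φ0 K).comp (jR K) = Polynomial.evalRingHom 0 := by
  ext p
  · show φ0 K (jR K (Polynomial.C p)) = _
    exact φ0_poly K (Polynomial.C p) _
  · show φ0 K (jR K Polynomial.X) = _
    exact φ0_poly K Polynomial.X _

theorem exists_space (S : σ → MvPolynomial ι K) (hS : ∀ v, S v ∈ restrictTotalDegree ι K 1)
    (P : MvPolynomial σ K) (N : ℕ) (hN : 1 ≤ N) (hP : P.totalDegree ≤ N)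
    (F : MvPolynomial (Option σ) K) (hF : F ≠ 0) (h0 : gs P F = 0) (s : ℕ) (M : Finset ℕ)
    (g : ℕ → MvPolynomial (Option σ) K) (hg : NSLP s M g) (hFg : ∃ i < s, F = g i) :
    ∃ (W : Submodule K (MvPolynomial ι K)) (G : MvPolynomial ι K),
      restrictTotalDegree ι K 1 ≤ W ∧ Good (fun t => N * Nm ι t) (3 * M.card) W ∧ G ≠ 0 ∧
      G ∈ W ∧ ∀ u, G * aeval S (pderiv u P) ∈ W := by
  classical
  obtain ⟨d, H, hFH, hH⟩ := exists_factor P F hF h0
  -- a point where `H` does not vanish on the graph
  obtain ⟨x, hx⟩ : ∃ x : σ → K, eval x (gs P H) ≠ 0 := by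
    by_contra hcon
    push Not at hcon
    apply hH
    apply MvPolynomial.funext
    intro x
    rw [hcon x, map_zero]
  set w : σ → K := fun v => x v - eval 0 (S v) with hw
  set sR : σ → MvPolynomial ι (Polynomial K) := fun v =>
    map Polynomial.C (S v) + C (Polynomial.X * Polynomial.C (w v)) with hsR
  -- specialization at `0`
  have hs0 : ∀ v, map (Polynomial.evalRingHom (0 : K)) (sR v) = S v := by
    intro v
    rw [hsR]
    simp only [map_add, map_C, Polynomial.coe_evalRingHom, Polynomial.eval_mul,
      Polynomial.eval_X, zero_mul, map_zero, add_zero]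
    have : (Polynomial.evalRingHom (0 : K)).comp Polynomial.C = RingHom.id K := by
      ext c; simp
    rw [MvPolynomial.map_map, this, map_id]
  have hbase : ∀ (t : K) (c : K), Polynomial.evalRingHom t (algebraMap K (Polynomial K) c)
      = algebraMap K K c := by
    intro t c
    rw [Polynomial.algebraMap_eq]; simp
  have hE : aeval sR (gs P H) ≠ 0 := by
    intro h
    apply hx
    have h1 := congrArg (map (Polynomial.evalRingHom (1 : K))) h
    rw [map_aeval_base _ (hbase 1), map_zero] at h1
    have h2 := congrArg (eval (0 : ι → K)) h1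
    rw [map_zero] at h2
    rw [← h2]
    have h3 : (eval (0 : ι → K)).comp ((aeval fun v => map (Polynomial.evalRingHom (1 : K)) (sR v) :
        MvPolynomial σ K →ₐ[K] MvPolynomial ι K) : MvPolynomial σ K →+* MvPolynomial ι K)
        = eval x := by
      apply MvPolynomial.ringHom_ext
      · intro c; simp
      · intro v
        simp only [RingHom.comp_apply, RingHom.coe_coe, aeval_X, eval_X]
        rw [hsR]
        simp only [map_add, map_C, Polynomial.coe_evalRingHom, Polynomial.eval_mul,
          Polynomial.eval_X, one_mul, Polynomial.eval_C, eval_C]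
        have : (Polynomial.evalRingHom (1 : K)).comp Polynomial.C = RingHom.id K := by
          ext c; simp
        rw [MvPolynomial.map_map, this, map_id, hw]
        simp
    exact (DFunLike.congr_fun h3 (gs P H)).symm
  obtain ⟨k, E₀, hE₀, hG⟩ := exists_eps _ hE
  set G := map (Polynomial.evalRingHom (0 : K)) E₀ with hGdef
  set b : MvPolynomial ι (Polynomial K) := aeval sR P + C (Polynomial.X ^ (k + 1)) with hb
  set sT : Option σ → MvPolynomial ι (Polynomial K) := fun o => o.elim b sR with hsT
  have hTren : ∀ p : MvPolynomial σ K, aeval sT (rename some p) = aeval sR p := by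
    intro p
    rw [aeval_rename]
    rfl
  have hTq : aeval sT (qq P) = C (Polynomial.X ^ (k + 1)) := by
    rw [qq, map_sub, hTren, aeval_X]
    show b - aeval sR P = _
    rw [hb]; ring
  obtain ⟨r₀, hr₀⟩ := dvd_sub_rename P H
  have hTH : aeval sT H = C (Polynomial.X ^ k) * (E₀ + C Polynomial.X * aeval sT r₀) := by
    have h1 : H = rename some (gs P H) + qq P * r₀ := by rw [← hr₀]; ring
    rw [h1, map_add, map_mul, hTren, hTq, hE₀, pow_succ, map_mul]
    ring
  set u : Option σ → MvPolynomial ι (Polynomial K) := fun o =>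
    ((d + 1 : ℕ) : MvPolynomial ι (Polynomial K)) * aeval sT (pderiv o (qq P)) *
      (E₀ + C Polynomial.X * aeval sT r₀) + C Polynomial.X * aeval sT (pderiv o H) with hu
  have hder : ∀ o, aeval sT (pderiv o F) = C ((Polynomial.X ^ (k + 1)) ^ d * Polynomial.X ^ k)
      * u o := by
    intro o
    rw [hFH, Derivation.leibniz, Derivation.leibniz_pow]
    simp only [smul_eq_mul, nsmul_eq_mul, Nat.add_sub_cancel, map_add, map_mul, map_pow,
      map_natCast, hTq, hTH]
    rw [hu]
    simp only [map_pow]
    ring
  -- over the field `L`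
  set alg := algebraMap (Polynomial K) (RatFunc K) with halg
  set sL : Option σ → MvPolynomial ι (RatFunc K) := fun o => map alg (sT o) with hsL
  have hbaseL : ∀ c : K, alg (algebraMap K (Polynomial K) c) = algebraMap K (RatFunc K) c := by
    intro c
    rw [halg, ← IsScalarTower.algebraMap_apply]
  set W₀ : Submodule (RatFunc K) (MvPolynomial ι (RatFunc K)) :=
    restrictTotalDegree ι (RatFunc K) 1 ⊔ Submodule.span (RatFunc K) {sL none} with hW₀
  have hsRdeg : ∀ v, (sR v).totalDegree ≤ 1 := by
    intro v
    rw [hsR]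
    refine (totalDegree_add _ _).trans (max_le ?_ ?_)
    · exact (totalDegree_map_le _ _).trans ((mem_restrictTotalDegree _ _ _).1 (hS v))
    · rw [totalDegree_C]; exact Nat.zero_le _
  have hbdeg : (sL none).totalDegree ≤ N := by
    refine (totalDegree_map_le _ _).trans ?_
    show b.totalDegree ≤ N
    rw [hb]
    refine (totalDegree_add _ _).trans (max_le ?_ ?_)
    · exact (totalDegree_aeval_le _ hsRdeg P).trans hP
    · rw [totalDegree_C]; exact Nat.zero_le _
  have hgood₀ : Good (fun t => N * Nm ι t) 0 W₀ := by
    refine ⟨Submodule.FG.sup (Module.Finite.iff_fg.mp inferInstance)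
      (Submodule.fg_span_singleton _), ?_, ?_⟩
    · apply (le_sup_left : restrictTotalDegree ι (RatFunc K) 1 ≤ W₀)
      rw [mem_restrictTotalDegree]; simp
    · intro t
      rw [pow_zero, one_mul]
      exact finrank_pow_le _ N hN hbdeg t
  obtain ⟨W, hWW₀, hWgood, hWd⟩ := gradient_good' hgood₀ (aeval sL) (by
      intro o
      rw [aeval_X]
      cases o with
      | none => exact (le_sup_right : _ ≤ W₀) (Submodule.mem_span_singleton_self _)
      | some v =>
        apply (le_sup_left : restrictTotalDegree ι (RatFunc K) 1 ≤ W₀)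
        rw [mem_restrictTotalDegree]
        exact (totalDegree_map_le _ _).trans (hsRdeg v)) s M _ (hg.map (algebraMap K (RatFunc K)))
    (map (algebraMap K (RatFunc K)) F) (by
      obtain ⟨i, hi, hFi⟩ := hFg
      exact ⟨i, hi, by rw [hFi]⟩)
  have huW : ∀ o, map alg (u o) ∈ W := by
    intro o
    have h1 := hWd o
    rw [pderiv_map, aeval_map_base] at h1
    have h2 : aeval sL (pderiv o F) = map alg (aeval sT (pderiv o F)) := by
      rw [map_aeval_base alg hbaseL]
    rw [h2, hder, map_mul, map_C, ← smul_eq_C_mul] at h1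
    have hne : alg ((Polynomial.X ^ (k + 1)) ^ d * Polynomial.X ^ k) ≠ 0 := by
      rw [halg, Ne, FaithfulSMul.algebraMap_eq_zero_iff]
      exact mul_ne_zero (pow_ne_zero _ (pow_ne_zero _ Polynomial.X_ne_zero))
        (pow_ne_zero _ Polynomial.X_ne_zero)
    have h3 := W.smul_mem (alg ((Polynomial.X ^ (k + 1)) ^ d * Polynomial.X ^ k))⁻¹ h1
    rwa [smul_smul, inv_mul_cancel₀ hne, one_smul] at h3
  set W' := spec (O0 K) (φ0 K) (ψ0 K) (φψ K) W with hW'
  have hspecmem : ∀ o, map (Polynomial.evalRingHom (0 : K)) (u o) ∈ W' := by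
    intro o
    refine ⟨map (jR K) (u o), ?_, ?_⟩
    · rw [MvPolynomial.map_map, subtype_jR]
      exact huW o
    · rw [MvPolynomial.map_map, φ0_jR]
  have hval : ∀ o, map (Polynomial.evalRingHom (0 : K)) (u o) =
      ((d + 1 : ℕ) : MvPolynomial ι K) *
        map (Polynomial.evalRingHom (0 : K)) (aeval sT (pderiv o (qq P))) * G := by
    intro o
    rw [hu]
    simp only [map_add, map_mul, map_natCast, map_C, Polynomial.coe_evalRingHom,
      Polynomial.eval_X, map_zero, zero_mul, add_zero, hGdef]
  have hd1 : ((d + 1 : ℕ) : K) ≠ 0 := by exact_mod_cast Nat.succ_ne_zero d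
  have hscale : ∀ p : MvPolynomial ι K, ((d + 1 : ℕ) : MvPolynomial ι K) * p ∈ W' → p ∈ W' := by
    intro p hp
    have h1 : ((d + 1 : ℕ) : MvPolynomial ι K) * p = ((d + 1 : ℕ) : K) • p := by
      rw [smul_eq_C_mul, map_natCast]
    rw [h1] at hp
    have h3 := W'.smul_mem ((d + 1 : ℕ) : K)⁻¹ hp
    rwa [smul_smul, inv_mul_cancel₀ hd1, one_smul] at h3
  refine ⟨W', G, ?_, spec_good hWgood, hG, ?_, ?_⟩
  · exact restrict_le_spec (le_sup_left.trans hWW₀)
  · apply hscale
    have h1 := hspecmem none
    rw [hval none] at h1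
    have h2 : pderiv none (qq P) = 1 := by
      rw [qq, map_sub, pderiv_X_self]
      have : pderiv none (rename some P) = 0 := by
        apply pderiv_eq_zero_of_notMem_vars
        intro hmem
        have := vars_rename (some : σ → Option σ) P hmem
        simp at this
      rw [this, sub_zero]
    rw [h2, map_one, map_one, mul_one] at h1
    exact h1
  · intro v
    have h1 := hspecmem (some v)
    rw [hval (some v)] at h1
    have h2 : pderiv (some v) (qq P) = - rename some (pderiv v P) := by
      rw [qq, map_sub, pderiv_rename (Option.some_injective σ), pderiv_X_of_ne (by simp), zero_sub]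
    rw [h2, map_neg, hTren, map_neg, map_aeval_base _ (hbase 0)] at h1
    have h3 : (fun v => map (Polynomial.evalRingHom (0 : K)) (sR v)) = S := funext hs0
    rw [h3] at h1
    have h4 : ((d + 1 : ℕ) : MvPolynomial ι K) * -aeval S (pderiv v P) * G =
        ((d + 1 : ℕ) : MvPolynomial ι K) * (-(G * aeval S (pderiv v P))) := by ring
    rw [h4] at h1
    have h5 := hscale _ h1
    have h6 := W'.neg_mem h5
    rwa [neg_neg] at h6

end Main

end Pool.Agent.H53R7
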