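import Pool.Agent.H53R7.Space
import Pool.Agent.H53R7.Degree
import Pool.Agent.H53R7.Spec
import Pool.Agent.H632R3.BNL.Numeric

/-! # The degree bound for polynomials vanishing on the graph of the permanent -/

set_option autoImplicit false
set_option linter.unusedSectionVars false

open MvPolynomial Module Finset

namespace Pool.Agent.H53R7

open Pool.Agent.H546R2.SL

lemma totalDegree_perN (K : Type*) [Field K] (N : ℕ) : (perN K N).totalDegree ≤ N := by
  classical
  unfold perN Matrix.permanent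
  refine (totalDegree_finset_sum _ _).trans (Finset.sup_le fun s _ => ?_)
  refine (totalDegree_finset_prod _ _).trans ?_
  simp only [Matrix.of_apply, totalDegree_X, Finset.sum_const, smul_eq_mul, mul_one,
    Finset.card_univ, Fintype.card_fin]
  exact le_rfl

lemma map_gs {K L : Type*} [Field K] [Field L] (f : K →+* L) {σ : Type*} (P : MvPolynomial σ K)
    (F : MvPolynomial (Option σ) K) : map f (gs P F) = gs (map f P) (map f F) := by
  induction F using MvPolynomial.induction_on with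
  | C c => simp [gs]
  | add p q hp hq => simp only [map_add, hp, hq]
  | mul_X p v hp =>
    rw [map_mul, map_mul, hp, map_mul, map_mul]
    congr 1
    cases v with
    | none => rw [map_X, gs_none, gs_none]
    | some i => rw [map_X]; unfold gs; rw [aeval_X, aeval_X]; simp

theorem graph_ineq_closed (K : Type*) [Field K] [IsAlgClosed K] [CharZero K] {q h k p : ℕ}
    (hk : 3 ≤ k) (N : ℕ)
    (hN : N = q * (4 * k + h) + h * (2 * k + h + 2) + (3 * k + h + 1) + p)
    (s : ℕ) (M : Finset ℕ) (g : ℕ → MvPolynomial (Option (Fin N × Fin N)) K) (hg : NSLP s M g)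
    (F : MvPolynomial (Option (Fin N × Fin N)) K) (hF : F ≠ 0) (h0 : gs (perN K N) F = 0)
    (hFg : ∃ i < s, F = g i) (ℓ : ℕ) (hℓ : N ≤ 2 ^ ℓ) :
    ((k - 1) / 2) ^ (q * (q * (h * k))) ≤ 2 ^ (3 * M.card + ℓ) := by
  classical
  obtain ⟨S, y, hS, hy, hz, hyS⟩ := exists_subst K (q := q) (h := h) (k := k) (p := p)
    (by omega) N hN
  obtain ⟨W, G, hW1, hWgood, hG0, hGW, hGder⟩ := exists_space S hS (perN K N) N (by omega)
    (totalDegree_perN K N) F hF h0 s M g hg hFg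
  have hcardι : Fintype.card (Pool.Agent.H546R2.SM.Idx q h k) = q * (q * (h * k)) := by
    simp [Pool.Agent.H546R2.SM.Idx, Fintype.card_prod]
  rw [← hcardι]
  refine degree_bound_factor y (k - 1) (by omega) hy hz (3 * M.card) ℓ N hℓ W hW1 hWgood G hG0 hGW
    ?_
  intro v
  obtain ⟨c, u, hcu⟩ := hyS v
  have h1 : G * y v = c • (G * aeval S (pderiv u (perN K N))) := by
    rw [hcu, smul_eq_C_mul]; ring
  rw [h1]
  exact W.smul_mem _ (hGder u)

theorem graph_ineq (K : Type*) [Field K] [CharZero K] {q h k p : ℕ} (hk : 3 ≤ k) (N : ℕ)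
    (hN : N = q * (4 * k + h) + h * (2 * k + h + 2) + (3 * k + h + 1) + p)
    (s : ℕ) (M : Finset ℕ) (g : ℕ → MvPolynomial (Option (Fin N × Fin N)) K) (hg : NSLP s M g)
    (F : MvPolynomial (Option (Fin N × Fin N)) K) (hF : F ≠ 0) (h0 : gs (perN K N) F = 0)
    (hFg : ∃ i < s, F = g i) (ℓ : ℕ) (hℓ : N ≤ 2 ^ ℓ) :
    ((k - 1) / 2) ^ (q * (q * (h * k))) ≤ 2 ^ (3 * M.card + ℓ) := by
  set ρ := algebraMap K (AlgebraicClosure K) with hρ
  refine graph_ineq_closed (AlgebraicClosure K) hk N hN s M _ (hg.map ρ) (map ρ F) ?_ ?_ ?_ ℓ hℓ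
  · intro h
    apply hF
    apply map_injective ρ ρ.injective
    rw [h, map_zero]
  · rw [← map_perN ρ, ← map_gs, h0, map_zero]
  · obtain ⟨i, hi, hFi⟩ := hFg
    exact ⟨i, hi, by rw [hFi]⟩

/-- the inequality in the form needed for the choice of parameters -/
theorem graph_ineq' (K : Type*) [Field K] [CharZero K] (N : ℕ)
    (s : ℕ) (M : Finset ℕ) (g : ℕ → MvPolynomial (Option (Fin N × Fin N)) K) (hg : NSLP s M g)
    (F : MvPolynomial (Option (Fin N × Fin N)) K) (hF : F ≠ 0) (h0 : gs (perN K N) F = 0)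
    (hFg : ∃ i < s, F = g i) (q h k p : ℕ) (hk : 2 ≤ k)
    (hN : N = q * (4 * k + h) + h * (2 * k + h + 2) + (3 * k + h + 1) + p) :
    (k - 1) ^ (q * (q * (h * k))) ≤ 2 ^ (3 * (M.card + N + N ^ 2 / 8)) := by
  rcases Nat.lt_or_ge k 3 with hk3 | hk3
  · have : k = 2 := by omega
    subst this
    rw [show 2 - 1 = 1 from rfl, one_pow]
    exact Nat.one_le_two_pow
  · have h1 := graph_ineq K hk3 N hN s M g hg F hF h0 hFg N Nat.lt_two_pow_self.le
    have h2 : k - 1 ≤ 4 * ((k - 1) / 2) := by omega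
    have h3 : 16 * (q * (q * (h * k))) ≤ N ^ 2 := by
      have h4 : q * (4 * k + h) ≤ N := by omega
      have h5 : 16 * (h * k) ≤ (4 * k + h) * (4 * k + h) := by
        zify
        nlinarith [sq_nonneg ((4 : ℤ) * k - h)]
      calc 16 * (q * (q * (h * k))) = q * q * (16 * (h * k)) := by ring
        _ ≤ q * q * ((4 * k + h) * (4 * k + h)) := Nat.mul_le_mul_left _ h5
        _ = (q * (4 * k + h)) * (q * (4 * k + h)) := by ring
        _ ≤ N * N := Nat.mul_le_mul h4 h4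
        _ = N ^ 2 := by ring
    set D := q * (q * (h * k)) with hD
    calc (k - 1) ^ D ≤ (4 * ((k - 1) / 2)) ^ D := Nat.pow_le_pow_left h2 _
      _ = 2 ^ (2 * D) * ((k - 1) / 2) ^ D := by
          rw [mul_pow, show (4 : ℕ) = 2 ^ 2 from rfl, ← pow_mul]
      _ ≤ 2 ^ (2 * D) * 2 ^ (3 * M.card + N) := Nat.mul_le_mul_left _ h1
      _ = 2 ^ (2 * D + (3 * M.card + N)) := by rw [← pow_add]
      _ ≤ 2 ^ (3 * (M.card + N + N ^ 2 / 8)) := by
          apply Nat.pow_le_pow_right (by norm_num)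
          have h6 : 2 * D ≤ N ^ 2 / 8 := by
            rw [Nat.le_div_iff_mul_le (by norm_num)]
            omega
          omega

theorem graph_lower (ε : ℝ) (hε : 0 < ε) : ∃ N₀ : ℕ, ∀ (K : Type*) [Field K] [CharZero K],
    ∀ N ≥ N₀, ∀ (s : ℕ) (M : Finset ℕ) (g : ℕ → MvPolynomial (Option (Fin N × Fin N)) K),
      NSLP s M g → ∀ F : MvPolynomial (Option (Fin N × Fin N)) K, F ≠ 0 →
      gs (perN K N) F = 0 → (∃ i < s, F = g i) →
      (1 / 96 - ε) * (N : ℝ) ^ 2 * Real.logb 2 N ≤ M.card := by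
  obtain ⟨N₀, hN₀⟩ := Pool.Agent.H632R3.BNL.numeric (ε / 2) (by positivity)
  obtain ⟨a, ha⟩ := exists_nat_ge (4 / ε)
  refine ⟨max (max N₀ 1) (2 ^ a), fun K _ _ N hN s M g hg F hF h0 hFg => ?_⟩
  have hN1 : N₀ ≤ N := (le_max_left _ _).trans ((le_max_left _ _).trans hN)
  have hN2 : 1 ≤ N := (le_max_right _ _).trans ((le_max_left _ _).trans hN)
  have hN3 : 2 ^ a ≤ N := (le_max_right _ _).trans hN
  have hNr : (1 : ℝ) ≤ N := by exact_mod_cast hN2
  have h1 := hN₀ N hN1 (M.card + N + N ^ 2 / 8) (fun q h k p hk hNe =>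
    graph_ineq' K N s M g hg F hF h0 hFg q h k p hk hNe)
  have h2 : (4 / ε) ≤ Real.logb 2 N := by
    refine ha.trans ?_
    rw [Real.le_logb_iff_rpow_le (by norm_num) (by linarith)]
    rw [Real.rpow_natCast]
    exact_mod_cast hN3
  have h3 : (4 : ℝ) ≤ ε * Real.logb 2 N := by
    rw [div_le_iff₀ hε] at h2
    linarith
  have h4 : ((M.card + N + N ^ 2 / 8 : ℕ) : ℝ) ≤ M.card + 2 * (N : ℝ) ^ 2 := by
    have h5 : ((N ^ 2 / 8 : ℕ) : ℝ) ≤ (N : ℝ) ^ 2 := by
      have : N ^ 2 / 8 ≤ N ^ 2 := Nat.div_le_self _ _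
      exact_mod_cast this
    have h6 : (N : ℝ) ≤ (N : ℝ) ^ 2 := by nlinarith
    push_cast at h5 ⊢
    linarith
  have h7 : 2 * (N : ℝ) ^ 2 ≤ (ε / 2) * (N : ℝ) ^ 2 * Real.logb 2 N := by
    have : 0 ≤ (N : ℝ) ^ 2 := by positivity
    nlinarith
  have h8 : (1 / 96 - ε) * (N : ℝ) ^ 2 * Real.logb 2 N
      = (1 / 96 - ε / 2) * (N : ℝ) ^ 2 * Real.logb 2 N
        - (ε / 2) * (N : ℝ) ^ 2 * Real.logb 2 N := by ring
  rw [h8]
  linarith

end Pool.Agent.H53R7
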