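import Pool.Agent.H546R2.SM.B8

/-! # The substitution behind the degree bound for the gradient of the permanent -/

set_option autoImplicit false
set_option linter.unusedSectionVars false

open MvPolynomial Finset

namespace Pool.Agent.H53R7

open Pool.Agent.H546R2.SL (perN aeval_pderiv exists_zeta phi lin Good Nm good_W₀ degree_bound
  NSLP gradient_good' phi_sum phi_C_mul eps)
open Pool.Agent.H546R2.SM

theorem exists_subst (K : Type*) [Field K] [IsAlgClosed K] [CharZero K] {q h k p : ℕ}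
    (hk : 2 ≤ k) (N : ℕ)
    (hN : N = q * (4 * k + h) + h * (2 * k + h + 2) + (3 * k + h + 1) + p) :
    ∃ (S : Fin N × Fin N → MvPolynomial (Idx q h k) K)
      (y : Fin q × Fin q × Fin (2 * k) × Fin (2 * k + h) → MvPolynomial (Idx q h k) K),
      (∀ v, S v ∈ restrictTotalDegree (Idx q h k) K 1) ∧
      (∀ v, (y v).IsHomogeneous (k - 1)) ∧
      (∀ x : Idx q h k → K, (∀ v, eval x (y v) = 0) → x = 0) ∧
      ∀ v, ∃ (c : K) (u : Fin N × Fin N), y v = C c * aeval S (pderiv u (perN K N)) := by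
  classical
  obtain ⟨zC, hzC⟩ := exists_zeta K (2 * k + h) (by omega)
  obtain ⟨zU, hzU⟩ := exists_zeta K (k + 1) (by omega)
  obtain ⟨zm, hzm⟩ := exists_zeta K (2 * k) (by omega)
  obtain ⟨zV, hzV⟩ := exists_zeta K (k + h + 1) (by omega)
  obtain ⟨t, ht, hzero⟩ := exists_t (q := q) (h := h) (k := k) (C₀ := 2 * k + h) K hk rfl
  set FMA := FM K q h k p t zC zU zm zV (Aent K q h k t) with hFMA
  let er : Fin N ≃ FR q h (2 * k) (2 * k + h) k (k + h) p :=
    Fintype.equivOfCardEq (by rw [card_FR, Fintype.card_fin, hN]; ring)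
  let ec : Fin N ≃ FC q h (2 * k) (2 * k + h) k (k + h) p :=
    Fintype.equivOfCardEq (by rw [card_FC, Fintype.card_fin, hN]; ring)
  have hCmem : ∀ x : K, C x ∈ restrictTotalDegree (Idx q h k) K 1 := by
    intro x
    rw [mem_restrictTotalDegree, totalDegree_C]
    exact Nat.zero_le _
  have hdeg : ∀ i j, FMA i j ∈ restrictTotalDegree (Idx q h k) K 1 := by
    intro i j
    rw [hFMA]
    unfold FM
    apply fin_mem (W := (restrictTotalDegree (Idx q h k) K 1 : Set (MvPolynomial (Idx q h k) K)))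
    · exact Submodule.zero_mem _
    · exact hCmem 1
    · exact fun _ => hCmem _
    · exact fun _ => hCmem _
    · exact fun _ => hCmem _
    · exact fun _ => hCmem _
    · intro b b' r c
      have := ((zent_homog (K := K) (h := h) b b' r c).C_mul (t ^ ex c r 0)).totalDegree_le
      exact (mem_restrictTotalDegree _ _ _).mpr this
    · exact fun _ _ => hCmem _
    · exact fun _ _ => hCmem _
    · exact fun _ => hCmem _
  refine ⟨fun x => FMA (er x.1) (ec x.2), fun v => Yf K q h k (2 * k + h) t v,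
    fun v => hdeg _ _, fun v => Yf_homog t v, hzero, ?_⟩
  rintro ⟨b₀, b₀', r₀, c₀⟩
  refine ⟨(cst K q h (2 * k) (2 * k + h) k (k + h) p (-1) (-1) (-1) (-1))⁻¹ * t ^ ex c₀ r₀ 0,
    (er.symm (posR b₀' c₀), ec.symm (posC b₀ r₀)), ?_⟩
  have h1 : aeval (fun x : Fin N × Fin N => FMA (er x.1) (ec x.2))
      (pderiv (er.symm (posR b₀' c₀), ec.symm (posC b₀ r₀)) (perN K N)) = _ :=
    aeval_pderiv FMA er ec (er.symm (posR b₀' c₀)) (ec.symm (posC b₀ r₀))
  rw [Equiv.apply_symm_apply, Equiv.apply_symm_apply] at h1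
  have h2 := per_add FMA (FM K q h k p t zC zU zm zV (fun b b' r c => Aent K q h k t b b' r c +
      if b' = b₀' ∧ c = c₀ then (if b = b₀ ∧ r = r₀ then 1 else 0) else 0))
    (posR b₀' c₀) (posC b₀ r₀) (fun i j => fin_add _ _ _ _ _ _ _ _ _ b₀ b₀' r₀ c₀
      (fun _ _ _ _ => rfl) i j)
  rw [← h2] at h1
  have hne := cst_ne_zero (K := K) q h (2 * k) (2 * k + h) k (k + h) p
  rw [h1, map_mul, mul_assoc, hFMA, FM_diff ht (by omega) zC zU zm zV hzC hzU hzm hzV b₀ b₀' r₀ c₀,
    ← mul_assoc, ← map_mul, inv_mul_cancel₀ hne, map_one, one_mul]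

end Pool.Agent.H53R7
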