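import Pool.Agent.H53R7.Main
import Pool.Agent.H213R3.PerCirc

/-! # Algebraic computation trees -/

set_option autoImplicit false
set_option linter.unusedSectionVars false

open MvPolynomial Finset Filter

namespace Pool.Agent.H53R7

open Pool.Agent.H546R2.SL Pool.Agent.H213R3.PC

universe u

/-- Operations on `n` registers: load a constant, load an input, or apply one of `+ - * /` to two
registers. -/
inductive Op (K : Type u) (σ : Type) (n : ℕ) : Type u
  | const (c : K) : Op K σ n
  | input (v : σ) : Op K σ n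
  | add (i j : Fin n) : Op K σ n
  | sub (i j : Fin n) : Op K σ n
  | mul (i j : Fin n) : Op K σ n
  | div (i j : Fin n) : Op K σ n

/-- Loading is free, the arithmetic operations cost `1`. -/
def Op.cost {K : Type u} {σ : Type} {n : ℕ} : Op K σ n → ℕ
  | const _ => 0
  | input _ => 0
  | _ => 1

/-- the result of an operation on input `x` and register contents `r` -/
def Op.value {K : Type u} [Field K] {σ : Type} {n : ℕ} (x : σ → K) (r : Fin n → K) :
    Op K σ n → K
  | const c => c
  | input v => x v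
  | add i j => r i + r j
  | sub i j => r i - r j
  | mul i j => r i * r j
  | div i j => r i / r j

/-- Algebraic computation trees with `n` registers in use. An operation node computes a new
register; a test node branches according to the outcome (in `T`) of a test of a register; a leaf
carries the answer. -/
inductive ACT (K : Type u) (σ : Type) (T : Type) : ℕ → Type u
  | leaf {n : ℕ} (b : Bool) : ACT K σ T n
  | op {n : ℕ} (o : Op K σ n) (t : ACT K σ T (n + 1)) : ACT K σ T n
  | test {n : ℕ} (i : Fin n) (next : T → ACT K σ T n) : ACT K σ T n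

namespace ACT

variable {K : Type u} {σ : Type} {T : Type}

/-- The answer on input `x`, with register contents `r`, if a register with content `c` has test
outcome `τ c`. -/
def run [Field K] (τ : K → T) (x : σ → K) : {n : ℕ} → ACT K σ T n → (Fin n → K) → Bool
  | _, leaf b, _ => b
  | _, op o t, r => t.run τ x (Fin.snoc (α := fun _ => K) r (o.value x r))
  | _, test i next, r => (next (τ (r i))).run τ x r

/-- The cost is the largest number of arithmetic operations on a path from the root to a leaf. -/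
def cost [Fintype T] : {n : ℕ} → ACT K σ T n → ℕ
  | _, leaf _ => 0
  | _, op o t => o.cost + t.cost
  | _, test _ next => Finset.univ.sup fun s => (next s).cost

end ACT

/-- what is needed of a test -/
structure TestLocus {K : Type u} [Field K] {T : Type} (τ : K → T) (𝓕 : Filter K) : Prop where
  neBot : 𝓕.NeBot
  ne : ∀ᶠ s in 𝓕, s ≠ 0
  stable : ∀ p q : Polynomial K, p.eval 0 ≠ 0 → q.eval 0 ≠ 0 →
    ∀ᶠ s in 𝓕, q.eval s ≠ 0 ∧ τ (p.eval s / q.eval s) = τ (p.eval 0 / q.eval 0)

section

variable {K : Type u} [Field K] {σ : Type} {T : Type}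

/-- the point above `X` at height `P(X) + s` -/
noncomputable def pt (P : MvPolynomial σ K) (X₀ : σ → K) (s : K) : Option σ → K :=
  fun o => o.elim (eval X₀ P + s) X₀

lemma eval_pt_zero (P : MvPolynomial σ K) (X₀ : σ → K) (f : MvPolynomial (Option σ) K) :
    eval (pt P X₀ 0) f = eval X₀ (gs P f) := by
  have h : eval (pt P X₀ 0) = (eval X₀).comp (gs P : MvPolynomial (Option σ) K →+* _) := by
    apply MvPolynomial.ringHom_ext
    · intro c
      simp [gs]
    · intro o
      cases o with
      | none => simp [pt, gs]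
      | some i => simp [pt, gs]
  rw [h]
  rfl

/-- the restriction to the vertical line -/
noncomputable def vl (P : MvPolynomial σ K) (X₀ : σ → K) :
    MvPolynomial (Option σ) K →ₐ[K] Polynomial K :=
  aeval (fun o => o.elim (Polynomial.C (eval X₀ P) + Polynomial.X) fun i => Polynomial.C (X₀ i))

lemma eval_vl (P : MvPolynomial σ K) (X₀ : σ → K) (f : MvPolynomial (Option σ) K) (s : K) :
    (vl P X₀ f).eval s = eval (pt P X₀ s) f := by
  have h : (Polynomial.evalRingHom s).comp (vl P X₀ : MvPolynomial (Option σ) K →+* Polynomial K)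
      = eval (pt P X₀ s) := by
    apply MvPolynomial.ringHom_ext
    · intro c
      simp [vl]
    · intro o
      cases o with
      | none => simp [pt, vl]
      | some i => simp [pt, vl]
  exact DFunLike.congr_fun h f

lemma stable_pt {τ : K → T} {𝓕 : Filter K} (h : TestLocus τ 𝓕) (P : MvPolynomial σ K)
    (X₀ : σ → K) (a b : MvPolynomial (Option σ) K) (ha : eval X₀ (gs P a) ≠ 0)
    (hb : eval X₀ (gs P b) ≠ 0) :
    ∀ᶠ s in 𝓕, τ (eval (pt P X₀ s) a / eval (pt P X₀ s) b)
      = τ (eval (pt P X₀ 0) a / eval (pt P X₀ 0) b) := by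
  have h1 := h.stable (vl P X₀ a) (vl P X₀ b) (by rw [eval_vl, eval_pt_zero]; exact ha)
    (by rw [eval_vl, eval_pt_zero]; exact hb)
  filter_upwards [h1] with s hs
  have h2 := hs.2
  rwa [eval_vl, eval_vl, eval_vl, eval_vl] at h2

lemma ne_pt {τ : K → T} {𝓕 : Filter K} (h : TestLocus τ 𝓕) (P : MvPolynomial σ K)
    (X₀ : σ → K) (b : MvPolynomial (Option σ) K) (hb : eval X₀ (gs P b) ≠ 0) :
    ∀ᶠ s in 𝓕, eval (pt P X₀ s) b ≠ 0 := by
  have h1 := h.stable 1 (vl P X₀ b) (by simp) (by rw [eval_vl, eval_pt_zero]; exact hb)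
  filter_upwards [h1] with s hs
  have h2 := hs.1
  rwa [eval_vl] at h2

/-- symbolic result of an operation on fractions -/
lemma op_symbolic {τ : K → T} {𝓕 : Filter K} (h : TestLocus τ 𝓕) (P : MvPolynomial σ K) {n : ℕ}
    (o : Op K (Option σ) n) (a b : Fin n → MvPolynomial (Option σ) K) (m : ℕ)
    (hAv : Av (Set.range a ∪ Set.range b) m) (hb : ∀ i, gs P (b i) ≠ 0)
    (H : ∀ f, Av {f} m → f ≠ 0 → gs P f ≠ 0) :
    ∃ a' b' : MvPolynomial (Option σ) K, Av (Set.range a ∪ Set.range b ∪ {a', b'}) (m + 3 * o.cost) ∧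
      gs P b' ≠ 0 ∧ ∃ Δ : MvPolynomial σ K, Δ ≠ 0 ∧ ∀ X₀, eval X₀ Δ ≠ 0 → ∀ s,
        (∀ i, eval (pt P X₀ s) (b i) ≠ 0) → eval (pt P X₀ s) b' ≠ 0 →
        eval (pt P X₀ s) a' / eval (pt P X₀ s) b' =
          o.value (pt P X₀ s) (fun i => eval (pt P X₀ s) (a i) / eval (pt P X₀ s) (b i)) := by
  classical
  set A : Set (MvPolynomial (Option σ) K) := Set.range a ∪ Set.range b with hA
  have ha' : ∀ i, a i ∈ A := fun i => Or.inl ⟨i, rfl⟩
  have hb' : ∀ i, b i ∈ A := fun i => Or.inr ⟨i, rfl⟩
  have h1free : ∀ {B : Set (MvPolynomial (Option σ) K)} {m' : ℕ}, Av B m' → Av (B ∪ {1}) m' := by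
    intro B m' hB
    exact hB.lin (p := 1) (Submodule.subset_span (Or.inl (Or.inl rfl)))
  have pair : ∀ {B : Set (MvPolynomial (Option σ) K)} {m' : ℕ} {p q : MvPolynomial (Option σ) K},
      Av (B ∪ {p} ∪ {q}) m' → Av (B ∪ {p, q}) m' := by
    intro B m' p q hB
    refine hB.mono ?_ le_rfl
    rintro z (hz | hz | hz)
    · exact Or.inl (Or.inl hz)
    · exact Or.inl (Or.inr hz)
    · exact Or.inr hz
  cases o with
  | const c =>
    refine ⟨C c, 1, ?_, by rw [map_one]; exact one_ne_zero, 1, one_ne_zero, ?_⟩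
    · refine pair ((h1free (hAv.lin (p := C c) ?_)).mono subset_rfl (by omega))
      have e : (C c : MvPolynomial (Option σ) K) = c • 1 := by rw [smul_eq_C_mul, mul_one]
      rw [e]
      exact Submodule.smul_mem _ _ (Submodule.subset_span (Or.inl (Or.inl rfl)))
    · intro X₀ _ s _ _
      simp [Op.value]
  | input v =>
    refine ⟨X v, 1, ?_, by rw [map_one]; exact one_ne_zero, 1, one_ne_zero, ?_⟩
    · refine pair ((h1free (hAv.lin (p := X v) ?_)).mono subset_rfl (by omega))
      exact Submodule.subset_span (Or.inl (Or.inr ⟨v, rfl⟩))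
    · intro X₀ _ s _ _
      simp [Op.value]
  | add i j =>
    refine ⟨a i * b j + a j * b i, b i * b j, ?_, by rw [map_mul]; exact mul_ne_zero (hb i) (hb j),
      1, one_ne_zero, ?_⟩
    · have h1 := hAv.mul (ha' i) (hb' j)
      have h2 := h1.mul (Or.inl (ha' j)) (Or.inl (hb' i))
      have h3 := h2.lin (p := a i * b j + a j * b i)
        (Submodule.add_mem _ (Submodule.subset_span (Or.inr (Or.inl (Or.inr rfl))))
          (Submodule.subset_span (Or.inr (Or.inr rfl))))
      have h4 := h3.mul (Or.inl (Or.inl (Or.inl (hb' i)))) (Or.inl (Or.inl (Or.inl (hb' j))))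
      refine h4.mono ?_ (by simp only [Op.cost]; omega)
      rintro z (hz | hz | hz)
      · exact Or.inl (Or.inl (Or.inl (Or.inl hz)))
      · exact Or.inl (Or.inr hz)
      · exact Or.inr hz
    · intro X₀ _ s hs _
      simp only [Op.value, map_add, map_mul]
      have := hs i
      have := hs j
      field_simp
  | sub i j =>
    refine ⟨a i * b j - a j * b i, b i * b j, ?_, by rw [map_mul]; exact mul_ne_zero (hb i) (hb j),
      1, one_ne_zero, ?_⟩
    · have h1 := hAv.mul (ha' i) (hb' j)
      have h2 := h1.mul (Or.inl (ha' j)) (Or.inl (hb' i))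
      have h3 := h2.lin (p := a i * b j - a j * b i)
        (Submodule.sub_mem _ (Submodule.subset_span (Or.inr (Or.inl (Or.inr rfl))))
          (Submodule.subset_span (Or.inr (Or.inr rfl))))
      have h4 := h3.mul (Or.inl (Or.inl (Or.inl (hb' i)))) (Or.inl (Or.inl (Or.inl (hb' j))))
      refine h4.mono ?_ (by simp only [Op.cost]; omega)
      rintro z (hz | hz | hz)
      · exact Or.inl (Or.inl (Or.inl (Or.inl hz)))
      · exact Or.inl (Or.inr hz)
      · exact Or.inr hz
    · intro X₀ _ s hs _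
      simp only [Op.value, map_sub, map_mul]
      have := hs i
      have := hs j
      field_simp
  | mul i j =>
    refine ⟨a i * a j, b i * b j, ?_, by rw [map_mul]; exact mul_ne_zero (hb i) (hb j),
      1, one_ne_zero, ?_⟩
    · have h1 := hAv.mul (ha' i) (ha' j)
      have h2 := h1.mul (Or.inl (hb' i)) (Or.inl (hb' j))
      exact (pair h2).mono subset_rfl (by simp only [Op.cost]; omega)
    · intro X₀ _ s hs _
      simp only [Op.value, map_mul]
      have := hs i
      have := hs j
      field_simp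
  | div i j =>
    by_cases haj : a j = 0
    · refine ⟨0, 1, ?_, by rw [map_one]; exact one_ne_zero, 1, one_ne_zero, ?_⟩
      · refine pair ((h1free (hAv.lin (p := 0) (Submodule.zero_mem _))).mono subset_rfl (by omega))
      · intro X₀ _ s _ _
        simp [Op.value, haj]
    · have hgj : gs P (a j) ≠ 0 := H (a j) (hAv.mono (by
        rw [Set.singleton_subset_iff]; exact ha' j) le_rfl) haj
      refine ⟨a i * b j, b i * a j, ?_, by rw [map_mul]; exact mul_ne_zero (hb i) hgj,
        1, one_ne_zero, ?_⟩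
      · have h1 := hAv.mul (ha' i) (hb' j)
        have h2 := h1.mul (Or.inl (hb' i)) (Or.inl (ha' j))
        exact (pair h2).mono subset_rfl (by simp only [Op.cost]; omega)
      · intro X₀ _ s hs hs'
        rw [map_mul] at hs'
        simp only [Op.value, map_mul]
        have := hs i
        have := hs j
        have := right_ne_zero_of_mul hs'
        field_simp

variable [Infinite K] [Fintype T]

theorem run_stable {τ : K → T} {𝓕 : Filter K} (h : TestLocus τ 𝓕) (P : MvPolynomial σ K) {n : ℕ}
    (t : ACT K (Option σ) T n) : ∀ (a b : Fin n → MvPolynomial (Option σ) K) (m : ℕ),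
    Av (Set.range a ∪ Set.range b) m → (∀ i, gs P (b i) ≠ 0) →
    (∀ f, Av {f} (m + 3 * t.cost) → f ≠ 0 → gs P f ≠ 0) →
    ∃ Δ : MvPolynomial σ K, Δ ≠ 0 ∧ ∀ X₀, eval X₀ Δ ≠ 0 → ∀ᶠ s in 𝓕,
      t.run τ (pt P X₀ s) (fun i => eval (pt P X₀ s) (a i) / eval (pt P X₀ s) (b i))
        = t.run τ (pt P X₀ 0) (fun i => eval (pt P X₀ 0) (a i) / eval (pt P X₀ 0) (b i)) := by
  classical
  induction t with
  | leaf b₀ =>
    intro a b m _ _ _
    exact ⟨1, one_ne_zero, fun X₀ _ => Eventually.of_forall fun s => rfl⟩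
  | @op n o t ih =>
    intro a b m hAv hb H
    simp only [ACT.cost] at H
    obtain ⟨a', b', hAv', hb', Δ₁, hΔ₁, hval⟩ := op_symbolic h P o a b m hAv hb
      (fun f hf hf0 => H f (hf.mono subset_rfl (by omega)) hf0)
    obtain ⟨Δ₂, hΔ₂, hrun⟩ := ih (Fin.snoc (α := fun _ => MvPolynomial (Option σ) K) a a')
      (Fin.snoc (α := fun _ => MvPolynomial (Option σ) K) b b') (m + 3 * o.cost) (by
        refine hAv'.mono ?_ le_rfl
        rintro z (⟨i, rfl⟩ | ⟨i, rfl⟩)
        · refine Fin.lastCases ?_ (fun i => ?_) i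
          · rw [Fin.snoc_last]; exact Or.inr (Or.inl rfl)
          · rw [Fin.snoc_castSucc]; exact Or.inl (Or.inl ⟨i, rfl⟩)
        · refine Fin.lastCases ?_ (fun i => ?_) i
          · rw [Fin.snoc_last]; exact Or.inr (Or.inr rfl)
          · rw [Fin.snoc_castSucc]; exact Or.inl (Or.inr ⟨i, rfl⟩)) (by
        intro i
        refine Fin.lastCases ?_ (fun i => ?_) i
        · rw [Fin.snoc_last]; exact hb'
        · rw [Fin.snoc_castSucc]; exact hb i) (by
        intro f hf hf0
        exact H f (hf.mono subset_rfl (by rw [mul_add]; omega)) hf0)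
    refine ⟨Δ₁ * Δ₂ * gs P b' * ∏ i, gs P (b i), ?_, ?_⟩
    · exact mul_ne_zero (mul_ne_zero (mul_ne_zero hΔ₁ hΔ₂) hb')
        (Finset.prod_ne_zero_iff.2 fun i _ => hb i)
    · intro X₀ hX
      rw [map_mul, map_mul, map_mul, map_prod] at hX
      have hX1 : eval X₀ Δ₁ ≠ 0 := left_ne_zero_of_mul (left_ne_zero_of_mul
        (left_ne_zero_of_mul hX))
      have hX2 : eval X₀ Δ₂ ≠ 0 := right_ne_zero_of_mul (left_ne_zero_of_mul
        (left_ne_zero_of_mul hX))
      have hX3 : eval X₀ (gs P b') ≠ 0 := right_ne_zero_of_mul (left_ne_zero_of_mul hX)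
      have hX4 : ∀ i, eval X₀ (gs P (b i)) ≠ 0 := fun i =>
        Finset.prod_ne_zero_iff.1 (right_ne_zero_of_mul hX) i (Finset.mem_univ i)
      have hbs : ∀ᶠ s in 𝓕, ∀ i, eval (pt P X₀ s) (b i) ≠ 0 := by
        rw [eventually_all]
        exact fun i => ne_pt h P X₀ (b i) (hX4 i)
      have hsnoc : ∀ s, (∀ i, eval (pt P X₀ s) (b i) ≠ 0) → eval (pt P X₀ s) b' ≠ 0 →
          (fun i => eval (pt P X₀ s) (Fin.snoc (α := fun _ => MvPolynomial (Option σ) K) a a' i) /
            eval (pt P X₀ s) (Fin.snoc (α := fun _ => MvPolynomial (Option σ) K) b b' i))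
          = Fin.snoc (α := fun _ => K)
            (fun i => eval (pt P X₀ s) (a i) / eval (pt P X₀ s) (b i))
            (o.value (pt P X₀ s) (fun i => eval (pt P X₀ s) (a i) / eval (pt P X₀ s) (b i))) := by
        intro s hs hs'
        funext i
        refine Fin.lastCases ?_ (fun i => ?_) i
        · rw [Fin.snoc_last, Fin.snoc_last, Fin.snoc_last]
          exact hval X₀ hX1 s hs hs'
        · rw [Fin.snoc_castSucc, Fin.snoc_castSucc, Fin.snoc_castSucc]
      filter_upwards [hrun X₀ hX2, hbs, ne_pt h P X₀ b' hX3] with s h1 h2 h3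
      simp only [ACT.run]
      rw [hsnoc s h2 h3, hsnoc 0 (fun i => by rw [eval_pt_zero]; exact hX4 i)
        (by rw [eval_pt_zero]; exact hX3)] at h1
      exact h1
  | @test n i next ih =>
    intro a b m hAv hb H
    simp only [ACT.cost] at H
    have hcost : ∀ r : T, (next r).cost ≤ Finset.univ.sup fun s => (next s).cost := fun r =>
      Finset.le_sup (f := fun s => (next s).cost) (Finset.mem_univ r)
    have hex := fun r : T => ih r a b m hAv hb (fun f hf hf0 => H f (hf.mono subset_rfl (by
      have := hcost r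
      omega)) hf0)
    choose Δ hΔ hrun using hex
    by_cases hai : a i = 0
    · refine ⟨∏ r, Δ r, Finset.prod_ne_zero_iff.2 fun r _ => hΔ r, ?_⟩
      intro X₀ hX
      rw [map_prod] at hX
      filter_upwards [hrun (τ 0) X₀ (Finset.prod_ne_zero_iff.1 hX _ (Finset.mem_univ _))] with s h1
      simp only [ACT.run, hai, map_zero, zero_div]
      exact h1
    · have hgi : gs P (a i) ≠ 0 := H (a i) (hAv.mono (by
        rw [Set.singleton_subset_iff]; exact Or.inl ⟨i, rfl⟩) (by omega)) hai
      refine ⟨gs P (a i) * gs P (b i) * ∏ r, Δ r, mul_ne_zero (mul_ne_zero hgi (hb i))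
        (Finset.prod_ne_zero_iff.2 fun r _ => hΔ r), ?_⟩
      intro X₀ hX
      rw [map_mul, map_mul, map_prod] at hX
      have hX1 := left_ne_zero_of_mul (left_ne_zero_of_mul hX)
      have hX2 := right_ne_zero_of_mul (left_ne_zero_of_mul hX)
      filter_upwards [hrun (τ (eval (pt P X₀ 0) (a i) / eval (pt P X₀ 0) (b i))) X₀
        (Finset.prod_ne_zero_iff.1 (right_ne_zero_of_mul hX) _ (Finset.mem_univ _)),
        stable_pt h P X₀ (a i) (b i) hX1 hX2] with s h1 h2
      simp only [ACT.run]
      rw [h2]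
      exact h1

/-- a tree deciding the graph yields a polynomial vanishing on the graph -/
theorem exists_poly {τ : K → T} {𝓕 : Filter K} (h : TestLocus τ 𝓕) (P : MvPolynomial σ K)
    (t : ACT K (Option σ) T 0)
    (ht : ∀ x : Option σ → K, t.run τ x Fin.elim0 = true ↔ x none = eval (fun i => x (some i)) P) :
    ∃ f : MvPolynomial (Option σ) K, Av {f} (3 * t.cost) ∧ f ≠ 0 ∧ gs P f = 0 := by
  classical
  by_contra hcon
  push Not at hcon
  have hne := h.neBot
  obtain ⟨Δ, hΔ, hrun⟩ := run_stable h P t Fin.elim0 Fin.elim0 0 (by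
    refine ⟨0, ∅, fun _ => 0, fun i hi => absurd hi (Nat.not_lt_zero i), by simp, by simp, ?_⟩
    rintro z (⟨i, _⟩ | ⟨i, _⟩) <;> exact i.elim0) (fun i => i.elim0) (by
    intro f hf hf0
    rw [zero_add] at hf
    exact hcon f hf hf0)
  obtain ⟨X₀, hX⟩ : ∃ X₀ : σ → K, eval X₀ Δ ≠ 0 := by
    by_contra hcon
    push Not at hcon
    apply hΔ
    apply MvPolynomial.funext
    intro x
    rw [hcon x, map_zero]
  obtain ⟨s, hs, hs0⟩ := ((hrun X₀ hX).and h.ne).exists
  have he : ∀ s : K, (fun i : Fin 0 => eval (pt P X₀ s) (Fin.elim0 i : MvPolynomial (Option σ) K) /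
      eval (pt P X₀ s) (Fin.elim0 i : MvPolynomial (Option σ) K)) = Fin.elim0 := by
    intro s
    funext i
    exact i.elim0
  have h1 : t.run τ (pt P X₀ s) Fin.elim0 = t.run τ (pt P X₀ 0) Fin.elim0 := by
    have h2 := hs
    rw [he s, he 0] at h2
    exact h2
  have h2 : t.run τ (pt P X₀ 0) Fin.elim0 = true := (ht _).2 (by simp [pt])
  rw [h2] at h1
  have h3 := (ht _).1 h1
  simp only [pt, Option.elim] at h3
  apply hs0
  have h4 : eval X₀ P + s = eval X₀ P + 0 := by rw [h3, add_zero]
  exact add_left_cancel h4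

end

/-- sign tests over the reals -/
theorem testLocus_sign : TestLocus (K := ℝ) (T := SignType) (fun x => SignType.sign x)
    (nhdsWithin 0 {0}ᶜ) := by
  refine ⟨inferInstance, eventually_mem_nhdsWithin, ?_⟩
  intro p q hp hq
  apply Filter.Eventually.filter_mono nhdsWithin_le_nhds
  have hqc : ContinuousAt (fun s : ℝ => q.eval s) 0 := q.continuous.continuousAt
  have hpc : ContinuousAt (fun s : ℝ => p.eval s) 0 := p.continuous.continuousAt
  have h1 : ∀ᶠ s in nhds (0 : ℝ), q.eval s ≠ 0 := hqc.eventually_ne hq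
  have h2 : ContinuousAt (fun s : ℝ => p.eval s / q.eval s) 0 := hpc.div hqc hq
  have h3 : p.eval 0 / q.eval 0 ≠ 0 := div_ne_zero hp hq
  rcases lt_or_gt_of_ne h3 with h4 | h4
  · have h5 := h2.eventually (Iio_mem_nhds h4)
    filter_upwards [h1, h5] with s h6 h7
    refine ⟨h6, ?_⟩
    rw [sign_neg h4, sign_neg h7]
  · have h5 := h2.eventually (Ioi_mem_nhds h4)
    filter_upwards [h1, h5] with s h6 h7
    refine ⟨h6, ?_⟩
    rw [sign_pos h4, sign_pos h7]

open Classical in
/-- zero tests over an infinite field -/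
theorem testLocus_zero (K : Type u) [Field K] [Infinite K] :
    TestLocus (K := K) (T := Bool) (fun x => decide (x = 0)) cofinite := by
  refine ⟨inferInstance, ?_, ?_⟩
  · rw [eventually_cofinite]
    simp
  · intro p q hp hq
    have h1 : ∀ f : Polynomial K, f.eval 0 ≠ 0 → ∀ᶠ s in cofinite, f.eval s ≠ 0 := by
      intro f hf
      have hf0 : f ≠ 0 := fun h => hf (by rw [h, Polynomial.eval_zero])
      rw [eventually_cofinite]
      refine (f.roots.toFinset.finite_toSet).subset ?_
      intro s hs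
      simp only [Set.mem_ofPred_eq, not_not] at hs
      rw [Finset.mem_coe, Multiset.mem_toFinset, Polynomial.mem_roots hf0]
      exact hs
    filter_upwards [h1 p hp, h1 q hq] with s h2 h3
    refine ⟨h3, ?_⟩
    have h4 : p.eval s / q.eval s ≠ 0 := div_ne_zero h2 h3
    have h5 : p.eval 0 / q.eval 0 ≠ 0 := div_ne_zero hp hq
    simp [h4, h5]

end Pool.Agent.H53R7
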